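import Pool.Agent.W921.Idl.Ideal

/-!
# No ccc ideals for the rank equivalence relation

For every assignment of sigma-ideals to the classes of the rank equivalence relation which is Borel
in the sense of the definition of an idealistic relation, there is an uncountable family of pairwise
disjoint Borel sets which are all positive on the class of the ill-founded trees: for some `n`, the
sets of the trees whose node `n` has rank `β`, for uncountably many `β`.
-/

set_option autoImplicit false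

open MeasureTheory Set Order
open scoped Ordinal

namespace Pool.Agent.Y534.ID

open Pool.Agent.W921.Idl

/-- The trees in which the node `n` has rank `β`. -/
def NR (n : ℕ) (β : Ordinal.{0}) : Set X := {x : X | LE x β n} \ ⋃ γ ∈ Set.Iio β, {x : X | LE x γ n}

theorem measurableSet_NR (n : ℕ) {β : Ordinal.{0}} (hβ : β < ω₁) : MeasurableSet (NR n β) := by
  refine (measurableSet_LE β hβ n).diff ?_
  exact MeasurableSet.biUnion (countable_Iio hβ) fun γ hγ => measurableSet_LE γ (lt_trans hγ hβ) n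

theorem mem_NR_iff {x : X} {n : ℕ} {β : Ordinal.{0}} :
    x ∈ NR n β ↔ ∃ h : Acc (R x) n, h.rank = β := by
  constructor
  · rintro ⟨⟨h, hle⟩, h2⟩
    refine ⟨h, le_antisymm hle ?_⟩
    by_contra hlt
    apply h2
    simp only [mem_iUnion]
    exact ⟨h.rank, not_le.1 hlt, h, le_rfl⟩
  · rintro ⟨h, rfl⟩
    refine ⟨⟨h, le_rfl⟩, ?_⟩
    simp only [mem_iUnion, not_exists]
    rintro β hβ ⟨_, hle⟩
    exact absurd hle (not_le.2 hβ)

theorem NR_unique {x : X} {n : ℕ} {β γ : Ordinal.{0}} (h : x ∈ NR n β) (h' : x ∈ NR n γ) :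
    β = γ := by
  rw [mem_NR_iff] at h h'
  obtain ⟨_, rfl⟩ := h
  obtain ⟨_, rfl⟩ := h'
  rfl

theorem exists_NR {x : X} {j : ℕ} (h : Acc (R x) j) :
    ∀ β : Ordinal.{0}, (∀ h' : Acc (R x) j, β ≤ h'.rank) → ∃ n, x ∈ NR n β := by
  induction h with
  | intro j hj ih =>
    intro β hβ
    have hacc : Acc (R x) j := Acc.intro j hj
    rcases (hβ hacc).eq_or_lt with he | hlt
    · exact ⟨j, mem_NR_iff.2 ⟨hacc, he.symm⟩⟩
    · obtain ⟨l, hl, h', hle⟩ := exists_child_rank hacc hlt
      exact ih (l + 1) ⟨l, rfl, hl⟩ β fun _ => hle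

theorem cls_subset_NR {x : X} {α β : Ordinal.{0}} (hx : x ∈ Cls α) (h : β ≤ α) :
    ∃ n, x ∈ NR n β := by
  obtain ⟨hx, rfl⟩ := hx
  exact exists_NR hx β fun _ => h

/-- Any Borel assignment of proper sigma-ideals to the classes has an ideal that is not ccc. -/
theorem not_ccc (J : Set X → Set (Set X))
    (hempty : ∀ x : X, ∅ ∈ J {y | E x y})
    (hunion : ∀ x : X, ∀ S : ℕ → Set X, (∀ n, S n ∈ J {y | E x y}) → (⋃ n, S n) ∈ J {y | E x y})
    (hproper : ∀ x : X, {y | E x y} ∉ J {y | E x y})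
    (hborel : ∀ A : Set (X × X), MeasurableSet A →
      MeasurableSet {x | {y | E x y ∧ (x, y) ∈ A} ∈ J {y | E x y}}) :
    ∃ (x : X) (T : Set (Set X)), (∀ B ∈ T, MeasurableSet B ∧ {y | E x y ∧ y ∈ B} ∉ J {y | E x y}) ∧
      T.PairwiseDisjoint id ∧ ¬ T.Countable := by
  obtain ⟨x₀, hx₀⟩ := ill_nonempty
  have hpos : ∀ β : Ordinal.{0}, β < ω₁ →
      ∃ n, {y | E x₀ y ∧ y ∈ NR n β} ∉ J {y | E x₀ y} := by
    intro β hβ
    by_contra hcon
    push Not at hcon
    have hmeas : ∀ n, MeasurableSet {x | {y | E x y ∧ y ∈ NR n β} ∈ J {y | E x y}} := fun n =>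
      hborel {p | p.2 ∈ NR n β} (measurable_snd (measurableSet_NR n hβ))
    have hbd := fun n => bounded_of_disjoint (hmeas n).compl (by
      intro x hx hxI
      apply hx
      have h1 : {y | E x y} = {y | E x₀ y} := by
        rw [setOf_E_ill hxI, setOf_E_ill hx₀]
      have h2 : {y | E x y ∧ y ∈ NR n β} = {y | E x₀ y ∧ y ∈ NR n β} := by
        ext y
        have : y ∈ {y | E x y} ↔ y ∈ {y | E x₀ y} := by rw [h1]
        exact and_congr_left fun _ => this
      rw [mem_ofPred_eq, h1, h2]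
      exact hcon n)
    choose ρ hρ hb using hbd
    have hsup : (⨆ n, ρ n) < ω₁ := Ordinal.iSup_lt_omega_one hρ
    have hα : max β (Order.succ (⨆ n, ρ n)) < ω₁ := max_lt hβ (succ_lt_omega_one hsup)
    have hρα : ∀ n, ρ n < max β (Order.succ (⨆ n, ρ n)) := fun n =>
      (Ordinal.le_iSup ρ n).trans_lt ((Order.lt_succ _).trans_le (le_max_right _ _))
    obtain ⟨x, hx⟩ := cls_nonempty ((zero_le (a := ρ 0)).trans_lt (hρα 0)) hα
    have hall : ∀ n, {y | E x y ∧ y ∈ NR n β} ∈ J {y | E x y} := by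
      intro n
      by_contra hn
      exact hb n _ (hρα n) x hx hn
    refine hproper x ?_
    have := hunion x _ hall
    convert this using 1
    ext y
    simp only [mem_iUnion, mem_ofPred_eq]
    constructor
    · intro hy
      obtain ⟨n, hn⟩ := cls_subset_NR ((E_cls hx y).1 hy) (le_max_left _ _)
      exact ⟨n, hy, hn⟩
    · rintro ⟨_, hy, _⟩
      exact hy
  choose! ν hν using hpos
  obtain ⟨n, hn⟩ : ∃ n, ¬ {β : Ordinal.{0} | β < ω₁ ∧ ν β = n}.Countable := by
    by_contra hcon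
    push Not at hcon
    have h1 : (Set.Iio (ω₁ : Ordinal.{0})).Countable := by
      refine (Set.countable_iUnion hcon).mono ?_
      intro β hβ
      simp only [mem_iUnion]
      exact ⟨ν β, hβ, rfl⟩
    rw [← Cardinal.le_aleph0_iff_set_countable, Cardinal.mk_Iio_ordinal,
      Cardinal.lift_le_aleph0] at h1
    simp at h1
  refine ⟨x₀, NR n '' {β : Ordinal.{0} | β < ω₁ ∧ ν β = n}, ?_, ?_, ?_⟩
  · rintro _ ⟨β, ⟨hβ, rfl⟩, rfl⟩
    exact ⟨measurableSet_NR _ hβ, hν β hβ⟩
  · rintro _ ⟨β, hβ, rfl⟩ _ ⟨γ, hγ, rfl⟩ hne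
    rw [Function.onFun, Set.disjoint_left]
    intro y hy hy'
    exact hne (by rw [NR_unique hy hy'])
  · intro hc
    refine hn (Set.countable_of_injective_of_countable_image ?_ hc)
    intro β hβ γ hγ hβγ
    have hne : (NR n β).Nonempty := by
      by_contra hemp
      rw [Set.not_nonempty_iff_eq_empty] at hemp
      refine hν β hβ.1 ?_
      rw [hβ.2, hemp]
      convert hempty x₀ using 1
      ext y
      simp
    obtain ⟨y, hy⟩ := hne
    exact NR_unique hy (hβγ ▸ hy)

end Pool.Agent.Y534.ID
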