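import Pool.Agent.W921.Idl.Ideal

/-!
# The ideals of the rank equivalence relation are Borel with parameters

The file `Pool.Agent.W921.Idl.Good` shows that forcing statements about Borel subsets of `X × X` are
uniformly Borel in the first coordinate. Here the first coordinate ranges over an arbitrary
measurable space `P`.
-/

set_option autoImplicit false

open MeasureTheory Set Order Filter Topology TopologicalSpace
open scoped Ordinal

namespace Pool.Agent.Y534.ID

open Pool.Agent.W921.Idl

universe u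

variable {P : Type u} [MeasurableSpace P]

/-- The sets for which the comeagreness in the basic open sets is uniformly Borel. -/
structure GoodP (A : Set (P × X)) : Prop where
  meas : MeasurableSet A
  frc : ∀ α : Ordinal.{0}, 0 < α → α < ω₁ → ∀ (w : Z α) (n : ℕ),
    MeasurableSet {p : P | Frc w n {y | (p, y) ∈ A}}
  unif : ∃ γ : Ordinal.{0}, γ < ω₁ ∧ ∀ α α' : Ordinal.{0}, 0 < α → α < ω₁ → 0 < α' → α' < ω₁ →
    ∀ (w : Z α) (w' : Z α') (n : ℕ), Agr γ w w' n →
      ∀ p, Frc w n {y | (p, y) ∈ A} ↔ Frc w' n {y | (p, y) ∈ A}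

theorem measurableSet_sec {A : Set (P × X)} (hA : MeasurableSet A) (p : P) :
    MeasurableSet {y | (p, y) ∈ A} := measurable_prodMk_left hA

theorem GoodP.compl {A : Set (P × X)} (h : GoodP A) : GoodP Aᶜ := by
  classical
  refine ⟨h.meas.compl, ?_, ?_⟩
  · intro α h0 h1 w n
    have := polish_Z h1
    have : Nonempty (Z α) := ⟨w⟩
    have key : {p : P | Frc w n {y | (p, y) ∈ Aᶜ}} = ⋂ k : ℕ, ⋂ m : ℕ,
        (if denseSeq (Z α) k ∈ cyl w n ∧ n ≤ m then
          {p : P | Frc (denseSeq (Z α) k) m {y | (p, y) ∈ A}}ᶜ else univ) := by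
      ext p
      have hc := frc_compl h1 (w := w) (n := n) (measurableSet_sec h.meas p)
      constructor
      · intro hp
        simp only [mem_iInter]
        intro k m
        split_ifs with hkm
        · exact hc.1 hp _ hkm.1 m hkm.2
        · exact mem_univ _
      · intro hp
        refine hc.2 fun v hv m hm hF => ?_
        obtain ⟨_, hu, ⟨k, rfl⟩⟩ := (denseRange_denseSeq (Z α)).inter_open_nonempty _ (isOpen_cyl v m)
          ⟨v, mem_cyl_self v m⟩
        simp only [mem_iInter] at hp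
        have := hp k m
        rw [if_pos ⟨cyl_subset hv hm hu, hm⟩] at this
        exact this ((frc_congr hu _).2 hF)
    rw [key]
    refine MeasurableSet.iInter fun k => MeasurableSet.iInter fun m => ?_
    split_ifs
    · exact (h.frc α h0 h1 _ _).compl
    · exact MeasurableSet.univ
  · obtain ⟨γ, hγ, hu⟩ := h.unif
    refine ⟨γ + ω, add_omega_lt hγ, ?_⟩
    have one : ∀ α α' : Ordinal.{0}, 0 < α → α < ω₁ → 0 < α' → α' < ω₁ →
        ∀ (w : Z α) (w' : Z α') (n : ℕ), Agr (γ + ω) w w' n →
          ∀ p, Frc w n {y | (p, y) ∈ Aᶜ} → Frc w' n {y | (p, y) ∈ Aᶜ} := by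
      intro α α' h0 h1 h0' h1' w w' n hag p hF
      have hc := frc_compl h1 (w := w) (n := n) (measurableSet_sec h.meas p)
      have hc' := frc_compl h1' (w := w') (n := n) (measurableSet_sec h.meas p)
      refine hc'.2 fun v' hv' m hm hF' => ?_
      obtain ⟨v, hv, hag'⟩ := hag.symm.extend h0 hv' hm
      exact hc.1 hF v hv m hm ((hu α' α h0' h1' h0 h1 v' v m hag' p).1 hF')
    intro α α' h0 h1 h0' h1' w w' n hag p
    exact ⟨one α α' h0 h1 h0' h1' w w' n hag p, one α' α h0' h1' h0 h1 w' w n hag.symm p⟩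

theorem GoodP.iInter {A : ℕ → Set (P × X)} (h : ∀ k, GoodP (A k)) : GoodP (⋂ k, A k) := by
  have hsec : ∀ p : P, {y | (p, y) ∈ ⋂ k, A k} = ⋂ k, {y | (p, y) ∈ A k} := by
    intro p; ext y; simp
  refine ⟨MeasurableSet.iInter fun k => (h k).meas, ?_, ?_⟩
  · intro α h0 h1 w n
    have : {p : P | Frc w n {y | (p, y) ∈ ⋂ k, A k}} =
        ⋂ k, {p : P | Frc w n {y | (p, y) ∈ A k}} := by
      ext p
      rw [mem_ofPred_eq, hsec, frc_iInter]
      simp
    rw [this]
    exact MeasurableSet.iInter fun k => (h k).frc α h0 h1 w n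
  · choose γ hγ hu using fun k => (h k).unif
    refine ⟨⨆ k, γ k, Ordinal.iSup_lt_omega_one hγ, ?_⟩
    intro α α' h0 h1 h0' h1' w w' n hag p
    rw [hsec, frc_iInter, frc_iInter]
    exact forall_congr' fun k => hu k α α' h0 h1 h0' h1' w w' n
      (hag.mono (Ordinal.le_iSup γ k)) p

theorem GoodP.iUnion {A : ℕ → Set (P × X)} (h : ∀ k, GoodP (A k)) : GoodP (⋃ k, A k) := by
  have : (⋃ k, A k) = (⋂ k, (A k)ᶜ)ᶜ := by simp [compl_iInter]
  rw [this]
  exact (GoodP.iInter fun k => (h k).compl).compl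

theorem goodP_fst {U : Set P} (hU : MeasurableSet U) : GoodP {p : P × X | p.1 ∈ U} := by
  have key : ∀ α : Ordinal.{0}, α < ω₁ → ∀ (w : Z α) (n : ℕ) (p : P),
      Frc w n {y | (p, y) ∈ {p : P × X | p.1 ∈ U}} ↔ p ∈ U := by
    intro α h1 w n p
    by_cases hp : p ∈ U
    · have : {y : X | (p, y) ∈ {p : P × X | p.1 ∈ U}} = univ := by
        ext y; simp [hp]
      rw [this]
      exact ⟨fun _ => hp, fun _ => frc_univ w n⟩
    · have : {y : X | (p, y) ∈ {p : P × X | p.1 ∈ U}} = ∅ := by
        ext y; simp [hp]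
      rw [this]
      exact ⟨fun h => absurd h (not_frc_empty h1 w n), fun h => absurd h hp⟩
  refine ⟨measurable_fst hU, ?_, ⟨0, Ordinal.omega_pos 1, ?_⟩⟩
  · intro α h0 h1 w n
    have : {p : P | Frc w n {y | (p, y) ∈ {p : P × X | p.1 ∈ U}}} = U := by
      ext p; exact key α h1 w n p
    rw [this]
    exact hU
  · intro α α' h0 h1 h0' h1' w w' n _ p
    rw [key α h1, key α' h1']

theorem goodP_snd (i : ℕ) (b : Fin (i + 1)) : GoodP {p : P × X | p.2 i = b} := by
  have hset : ∀ p : P, {y | (p, y) ∈ {p : P × X | p.2 i = b}} = {y : X | y i = b} := fun p => rfl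
  refine ⟨?_, ?_, ⟨0 + ω, add_omega_lt (Ordinal.omega_pos 1), ?_⟩⟩
  · have : Measurable (fun p : P × X => p.2 i) := (measurable_pi_apply i).comp measurable_snd
    exact this (measurableSet_singleton b)
  · intro α h0 h1 w n
    simp only [hset]
    exact MeasurableSet.const _
  · have one : ∀ α α' : Ordinal.{0}, 0 < α → α < ω₁ → 0 < α' → α' < ω₁ →
        ∀ (w : Z α) (w' : Z α') (n : ℕ), Agr (0 + ω) w w' n →
          Frc w n {y | y i = b} → Frc w' n {y | y i = b} := by
      intro α α' h0 h1 h0' h1' w w' n hag hF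
      rw [frc_coord h1] at hF
      rw [frc_coord h1']
      intro v' hv'
      obtain ⟨v, hv, hag'⟩ := hag.symm.extend h0 hv' (m := max n (i + 1)) (le_max_left _ _)
      rw [← hag'.1 i (by omega)]
      exact hF v hv
    intro α α' h0 h1 h0' h1' w w' n hag p
    rw [hset]
    exact ⟨one α α' h0 h1 h0' h1' w w' n hag, one α' α h0' h1' h0 h1 w' w n hag.symm⟩

theorem goodP_univ : GoodP (univ : Set (P × X)) := by
  have := goodP_fst (P := P) (U := univ) MeasurableSet.univ
  simpa using this

/-- The sigma-algebra of good sets. -/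
@[instance_reducible] def goodSpaceP (P : Type u) [MeasurableSpace P] :
    MeasurableSpace (P × X) where
  MeasurableSet' A := GoodP A
  measurableSet_empty := by
    have := (goodP_univ (P := P)).compl
    simpa using this
  measurableSet_compl A h := h.compl
  measurableSet_iUnion A h := GoodP.iUnion h

theorem goodP_of_measurable {A : Set (P × X)} (hA : MeasurableSet A) : GoodP A := by
  have h1 : @Measurable (P × X) P (goodSpaceP P) _ Prod.fst := by
    intro U hU
    exact goodP_fst hU
  have h2 : @Measurable (P × X) X (goodSpaceP P) _ Prod.snd := by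
    refine @measurable_pi_lambda _ _ _ (goodSpaceP P) _ _ fun i => ?_
    exact @measurable_to_countable' (Fin (i + 1)) (P × X) _ _ (goodSpaceP P) (fun p => p.2 i)
      fun b => goodP_snd i b
  have h3 : @Measurable (P × X) (P × X) (goodSpaceP P) _ (fun p => (p.1, p.2)) :=
    @Measurable.prodMk (P × X) (goodSpaceP P) P X _ _ _ _ h1 h2
  exact h3 hA

/-! ### Membership in the ideals -/

theorem memP_iff_cls {α : Ordinal.{0}} (h0 : 0 < α) (h1 : α < ω₁) {x : X} (hx : x ∈ Cls α)
    (B : Set X) : {y | E x y ∧ y ∈ B} ∈ I {y | E x y} ↔ Small α B := by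
  rw [setOf_E_cls hx, mem_I_cls h0 h1]
  constructor
  · rintro ⟨_, h⟩
    filter_upwards [h, generic_cls h1] with w hw hw2 hw3
    exact hw ⟨(E_cls hx _).2 hw2, hw3⟩
  · intro h
    refine ⟨fun y hy => (E_cls hx y).1 hy.1, h.mono fun y hy => hy.2⟩

theorem memP_iff_ill {x : X} (hx : x ∈ Ill) {S : Set X} (hS : MeasurableSet S)
    {γ : Ordinal.{0}} (hγ : γ < ω₁)
    (hu : ∀ α, γ ≤ α → α < ω₁ → (Small α S ↔ Small γ S)) :
    {y | E x y ∧ y ∈ S} ∈ I {y | E x y} ↔ Small γ S := by
  rw [setOf_E_ill hx, mem_I_ill]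
  constructor
  · rintro ⟨_, B, hB, hsub, δ, hδ, hsm⟩
    obtain ⟨ρ, hρ, hb⟩ := bounded_of_disjoint (hS.diff hB)
      (fun y hy hy' => hy.2 (hsub ⟨(E_ill hx y).2 hy', hy.1⟩))
    have hα : max (max γ δ) (Order.succ ρ) < ω₁ := max_lt (max_lt hγ hδ) (succ_lt_omega_one hρ)
    have hρα : ρ < max (max γ δ) (Order.succ ρ) := (Order.lt_succ ρ).trans_le (le_max_right _ _)
    have h0 : 0 < max (max γ δ) (Order.succ ρ) := (zero_le (a := ρ)).trans_lt hρα
    refine (hu _ ((le_max_left _ _).trans (le_max_left _ _)) hα).1 ?_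
    filter_upwards [hsm _ ((le_max_right _ _).trans (le_max_left _ _)) h0 hα, generic_cls hα]
      with w hw1 hw2 hw3
    exact hb _ hρα _ hw2 ⟨hw3, hw1⟩
  · intro h
    refine ⟨fun y hy => (E_ill hx y).1 hy.1, _, hS, fun y hy => hy.2, γ, hγ, ?_⟩
    intro α hα _ h1
    exact (hu α hα h1).2 h

/-- For a measurable map `f : P → X` and a measurable set `A ⊆ P × X`, the set of all `p` such that
the part of the class of `f p` in the section of `A` at `p` is in the ideal is measurable. -/
theorem measurable_param {f : P → X} (hf : Measurable f) {A : Set (P × X)} (hA : MeasurableSet A) :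
    MeasurableSet {p | {y | E (f p) y ∧ (p, y) ∈ A} ∈ I {y | E (f p) y}} := by
  have hG : GoodP Aᶜ := goodP_of_measurable hA.compl
  obtain ⟨γ', hγ', hu'⟩ := hG.unif
  obtain ⟨γ, hγ0, hγ, hγγ⟩ : ∃ γ : Ordinal.{0}, 0 < γ ∧ γ < ω₁ ∧ γ' ≤ γ :=
    ⟨Order.succ γ', (zero_le (a := γ')).trans_lt (Order.lt_succ γ'), succ_lt_omega_one hγ',
      Order.le_succ γ'⟩
  have hmeas : ∀ α : Ordinal.{0}, 0 < α → α < ω₁ →
      MeasurableSet {p : P | Small α {y | (p, y) ∈ A}} := by
    intro α h0 h1
    obtain ⟨w⟩ := nonempty_Z h0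
    have := hG.frc α h0 h1 w 0
    convert this using 1
    ext x
    exact small_iff_frc w _
  have hu : ∀ p : P, ∀ α, γ ≤ α → α < ω₁ →
      (Small α {y | (p, y) ∈ A} ↔ Small γ {y | (p, y) ∈ A}) := by
    intro p α hα h1
    have h0 : 0 < α := hγ0.trans_le hα
    obtain ⟨w⟩ := nonempty_Z h0
    obtain ⟨w'⟩ := nonempty_Z hγ0
    rw [small_iff_frc w, small_iff_frc w']
    refine hu' α γ h0 h1 hγ0 hγ w w' 0 ⟨fun i hi => absurd hi (Nat.not_lt_zero i), ?_⟩ p
    intro i hi
    obtain rfl : i = 0 := Nat.le_zero.1 hi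
    right
    rw [w.h_zero, w'.h_zero]
    exact ⟨hγγ, hγγ.trans hα⟩
  have key : {p | {y | E (f p) y ∧ (p, y) ∈ A} ∈ I {y | E (f p) y}} =
      (⋃ α ∈ Set.Ioo 0 γ, (f ⁻¹' Cls α ∩ {p : P | Small α {y | (p, y) ∈ A}})) ∪
        ((⋃ α ∈ Set.Ioo 0 γ, f ⁻¹' Cls α)ᶜ ∩ {p : P | Small γ {y | (p, y) ∈ A}}) := by
    ext p
    rcases class_cases (f p) with ⟨α, h0, h1, hx, _⟩ | ⟨hx, _⟩
    · have hm := memP_iff_cls h0 h1 hx {y | (p, y) ∈ A}
      simp only [mem_ofPred_eq] at hm ⊢
      rw [hm]
      by_cases hαγ : α < γ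
      · constructor
        · intro h
          left
          simp only [mem_iUnion]
          exact ⟨α, ⟨h0, hαγ⟩, hx, h⟩
        · rintro (h | h)
          · simp only [mem_iUnion] at h
            obtain ⟨β, hβ, hx', h⟩ := h
            obtain rfl := cls_unique hx hx'
            exact h
          · exfalso
            apply h.1
            simp only [mem_iUnion]
            exact ⟨α, ⟨h0, hαγ⟩, hx⟩
      · push Not at hαγ
        rw [hu p α hαγ h1]
        have hn : ∀ β ∈ Set.Ioo 0 γ, f p ∉ Cls β := by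
          rintro β hβ hx'
          obtain rfl := cls_unique hx hx'
          exact absurd hβ.2 (not_lt.2 hαγ)
        constructor
        · intro h
          right
          refine ⟨?_, h⟩
          simp only [mem_compl_iff, mem_iUnion, not_exists]
          exact hn
        · rintro (h | h)
          · simp only [mem_iUnion] at h
            obtain ⟨β, hβ, hx', _⟩ := h
            exact absurd hx' (hn β hβ)
          · exact h.2
    · have hm := memP_iff_ill hx (measurableSet_sec hA p) hγ (hu p)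
      simp only [mem_ofPred_eq] at hm ⊢
      rw [hm]
      have hn : ∀ β ∈ Set.Ioo 0 γ, f p ∉ Cls β := fun β _ hx' => not_ill_of_cls hx' hx
      constructor
      · intro h
        right
        refine ⟨?_, h⟩
        simp only [mem_compl_iff, mem_iUnion, not_exists]
        exact hn
      · rintro (h | h)
        · simp only [mem_iUnion] at h
          obtain ⟨β, hβ, hx', _⟩ := h
          exact absurd hx' (hn β hβ)
        · exact h.2
  rw [key]
  have hcount : (Set.Ioo 0 γ).Countable := (countable_Iio hγ).mono fun _ h => h.2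
  refine (MeasurableSet.biUnion hcount fun α hα => ?_).union
    ((MeasurableSet.biUnion hcount fun α hα => ?_).compl.inter (hmeas γ hγ0 hγ))
  · exact (hf (measurableSet_cls (hα.2.trans hγ))).inter (hmeas α hα.1 (hα.2.trans hγ))
  · exact hf (measurableSet_cls (hα.2.trans hγ))

end Pool.Agent.Y534.ID
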